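import Pool.Agent.U475.EA.F.Inf
import Pool.Agent.U475.EA.F.Frozen
import Pool.Agent.U475.EA.Decay

/-!
# Edwards–Anderson spin glass: uniqueness in all domains and all external fields at once

For almost every realisation `J` of the symmetric `±1` couplings on `ℤ^d` and all `0 < β ≤ c / √d`,
the model has exactly one Gibbs state

* in every external field `h : ℤ^d → ℝ` (inhomogeneous, unbounded, possibly depending on `J`): no
  transition of de Almeida–Thouless type at temperatures above `√d / c`;
* with the spins of an arbitrary finite or infinite set `V` of sites frozen to arbitrary values, i.e.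
  in every domain `ℤ^d \ V` with every boundary condition (for instance in half spaces: no surface
  transition, for no choice of the boundary spins and of boundary fields);
* with arbitrary spin lengths `t : ℤ^d → [-1, 1]`, in particular for every site dilution
  `t_x ∈ {0, 1}`.

One null set of `J` serves all `β`, `h`, `V`, all values of the frozen spins and all `t` together.
The starting file `UniquenessSqrtDim` is the case `h = 0`, `t = 1`, `V = ∅`.
-/

set_option autoImplicit false

open MeasureTheory Filter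
open scoped ENNReal Topology

namespace Pool.Agent.Results.MP_81d17b_pr.AllExternalFields

open Pool.H47EA Pool.Agent.U475.EA

/-- for `t = 1`, `h = 0`, `V = ∅` these are the Gibbs states of the Edwards–Anderson model -/
theorem isGibbsV_one_zero_empty {d : ℕ} (β : ℝ) (J : Coupling d) (τ : Site d → Bool)
    (π : Measure (Site d → Bool)) :
    IsGibbsV (enF β J (fun _ => 1) (fun _ => 0)) ∅ τ π ↔ IsGibbs β J π := by
  have h1 : ∀ (Λ : Finset (Site d)) (σ : Site d → Bool),
      enF β J (fun _ => 1) (fun _ => 0) Λ σ = β * ham J Λ σ := by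
    intro Λ σ
    unfold enF ham
    have e : ∀ e ∈ edgesOf Λ, bondT J (fun _ => 1) σ e = bond J σ e := by
      intro e _
      induction e using Sym2.ind with
      | _ x y =>
        rw [bondT_mk, Basic.bond_mk, one_mul, one_mul]
    rw [Finset.sum_congr rfl e]
    simp
  have h0 : ∀ Λ : Finset (Site d), free ∅ Λ = Λ := by
    intro Λ
    ext x
    rw [mem_free]
    simp
  have h2 : ∀ (Λ : Finset (Site d)) (ω : Site d → Bool) (f : (Site d → Bool) → ℝ),
      gA (enF β J (fun _ => 1) (fun _ => 0)) Λ ω f = gE β J Λ ω f := by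
    intro Λ ω f
    unfold gA ZA gE Zp
    simp only [h1]
  unfold IsGibbsV IsGibbs
  simp [h0, h2]

/-- There is an absolute constant `c > 0` such that for every dimension `d ≥ 1` and almost every
realisation `J` of the symmetric `±1` couplings: for all `β` with `0 < β ≤ c / √d`, all external
fields `h`, all spin lengths `t` with `|t_x| ≤ 1`, all sets `V` of sites and all configurations `τ`,
there is exactly one Gibbs state for the energy `β (∑ J_xy (t_x σ_x) (t_y σ_y) + ∑ h_x σ_x)` with the
spins of `V` frozen to `τ`. -/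
theorem result :
    ∃ c : ℝ, 0 < c ∧ ∀ d : ℕ, 1 ≤ d → ∀ᵐ J ∂(couplingLaw d),
      ∀ β : ℝ, 0 < β → β ≤ c / √(d : ℝ) → ∀ h t : Site d → ℝ, (∀ x, |t x| ≤ 1) →
        ∀ (V : Set (Site d)) (τ : Site d → Bool),
          ∃! π : Measure (Site d → Bool), IsGibbsV (enF β J t h) V τ π := by
  classical
  obtain ⟨q, hq1, hbad⟩ := bad_prob
  have hq0 : 0 < q := by linarith
  refine ⟨1 / (4 * q), by positivity, fun d hd => ?_⟩
  have hd' : (1 : ℝ) ≤ d := by exact_mod_cast hd
  have hsd : 1 ≤ √(d : ℝ) := by rw [Real.one_le_sqrt]; exact hd'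
  have hsd0 : 0 < √(d : ℝ) := by linarith
  have hsd2 : √(d : ℝ) ^ 2 = d := Real.sq_sqrt (by positivity)
  set T : ℝ := q * √(d : ℝ) with hT
  have hT0 : 0 < T := by positivity
  set ε : ℝ≥0∞ := ENNReal.ofReal (epsr d) with hε
  have hnum : ((180 ^ d : ℕ) : ℝ≥0∞) * (ε + ENNReal.ofReal (badr d)) ≤ 2⁻¹ := by
    refine le_trans ?_ (num_ennreal d hd)
    gcongr
    exact le_mul_of_one_le_left zero_le (one_le_pow₀ (by norm_num))
  have hchain := t_CHAIN d (16 * d) (bad d q) (ENNReal.ofReal (badr d)) ε (180 ^ d)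
    (fun x J J' h => bad_local d q x J J' h) (fun x => hbad d hd x)
    (fun x => card_ball_33 t_BALL d hd x) hnum
  filter_upwards [hchain] with J hJ β hβ0 hβ h t ht V τ
  have hβd0 : β * √(d : ℝ) ≤ 1 / (4 * q) := by
    rw [le_div_iff₀ hsd0] at hβ; exact hβ
  have hTβ : 4 * T * β ≤ 1 := by
    rw [hT]
    have h1 : 4 * q * (β * √(d : ℝ)) ≤ 4 * q * (1 / (4 * q)) :=
      mul_le_mul_of_nonneg_left hβd0 (by positivity)
    have h2 : 4 * q * (1 / (4 * q)) = 1 := by field_simp
    linarith
  have hβs : 4 * β * d ≤ √(d : ℝ) := by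
    have h3 : 1 / (4 * q) ≤ 1 / 4 := by
      apply one_div_le_one_div_of_le (by norm_num); linarith
    have h4 : β * √(d : ℝ) ≤ 1 / 4 := hβd0.trans h3
    calc 4 * β * d = 4 * (β * √(d : ℝ)) * √(d : ℝ) := by
          nth_rewrite 1 [← hsd2]; ring
      _ ≤ 4 * (1 / 4) * √(d : ℝ) := by gcongr
      _ = √(d : ℝ) := by ring
  have hE := nice_enF β J t h
  set p : Site d → ℝ := fun x => if J ∈ bad d q x then 1 else epsr d with hp
  have hpe : (fun x => ENNReal.ofReal (p x)) =
      fun x => if J ∈ bad d q x then (1 : ℝ≥0∞) else ε := by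
    funext x; simp only [hp, hε]; split_ifs <;> simp
  have hinf : ∀ (x : Site d) (Λ : Finset (Site d)), x ∈ Λ → ∀ ω ω' : Site d → Bool,
      (∀ y ∈ ball x (16 * d), y ∉ Λ → ω y = ω' y) →
      |gA (enF β J t h) Λ ω (ind x) - gA (enF β J t h) Λ ω' (ind x)| ≤ p x := by
    intro x Λ hxΛ ω ω' hω
    by_cases hb : J ∈ bad d q x
    · simp only [hp, hb, if_true]
      have hu01 : Unit01 (ind x) := by
        intro σ; unfold ind; split_ifs <;> norm_num
      have h1 := gA_unit (E := enF β J t h) Λ ω _ hu01
      have h2 := gA_unit (E := enF β J t h) Λ ω' _ hu01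
      rw [abs_le]; constructor <;> linarith [h1.1, h1.2, h2.1, h2.2]
    · simp only [hp, hb, if_false]
      have hG : Good J x (16 * d) T := by
        by_contra hcon; exact hb hcon
      refine (infF J t h ht x (16 * d) T hT0 hG β hβ0 hTβ Λ hxΛ ω ω' hω).trans ?_
      have h88 := card_ball_16 t_BALL d x
      have e1 : Real.exp (-((16 * d : ℕ) : ℝ)) = Real.exp (-(16 * d : ℝ)) := by
        push_cast; rfl
      rw [e1, epsr]
      gcongr
  have hforget : ForgetV (enF β J t h) V τ := by
    intro A δ hδ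
    have hJA := hJ A
    obtain ⟨n, hn⟩ :=
      ((ENNReal.tendsto_nhds_zero.mp hJA) (ENNReal.ofReal δ) (by simpa using hδ)).exists
    refine ⟨A.biUnion fun a => ball a ((n + 1) * (2 * (16 * d) + 1)),
      fun Λ hΛ f hf hloc ω ω' hω hω' => ?_⟩
    have hfar : ∀ a ∈ A, ∀ y, y ∉ Λ → (n + 1) * (2 * (16 * d) + 1) ≤ dist1 a y := by
      intro a ha y hy
      by_contra hcon
      apply hy
      apply hΛ
      rw [Finset.mem_biUnion]
      exact ⟨a, ha, (mem_ball_iff a y _).2 (by omega)⟩
    have h := explV hE V (16 * d) (2 * (16 * d)) (by omega) p hinf A f hf hloc Λ n hfar ω ω'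
      fun x hx => (hω x hx).trans (hω' x hx).symm
    rw [hpe] at h
    exact (ENNReal.ofReal_le_ofReal_iff hδ.le).1 (h.trans hn)
  obtain ⟨π, hπ⟩ := gibbsVE hE V τ
  exact ⟨π, hπ, fun π' hπ' => gibbsVU hE V τ hforget π' π hπ' hπ⟩

end Pool.Agent.Results.MP_81d17b_pr.AllExternalFields
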