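import Pool.Agent.U475.EA.Flip

/-!
# Edwards–Anderson spin glass: exponential decay of correlations for `β ≤ c / √d`

The starting result gives uniqueness of the Gibbs state for `β ≤ c / √d`. Here the loss of memory
is quantitative, with a rate which depends neither on the dimension nor on the temperature: for a
random constant `K_A(J)` with mean at most `10800 ^ d |A|`, the influence of the boundary condition
on the spins in `A` is at most `K_A(J) exp (-r / 9)` in ALL volumes whose complement is at
`ℓ¹`-distance at least `r` from `A`, for all pairs of boundary conditions (also depending on `J`)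
and all `β ≤ c / √d` simultaneously. Hence in every Gibbs state the spins in `A` are exponentially
mixing with all spins at distance at least `r`, and almost surely the two-point function is at most
`4 K_x(J) exp (-|x - y| / 9)`.

Outline: chains of disagreement are counted with the weight `60 ^ d` per step; a good site transmits
a disagreement over the distance `16 d` with probability at most `exp (-16 d) √d 88 ^ (d / 2)`, and
a bad site has probability at most `2 · 88 ^ d exp (-16 d)`, while there are at most `180 ^ d`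
possible steps.
-/

set_option autoImplicit false

open MeasureTheory
open scoped ENNReal

namespace Pool.Agent.Results.MP_81d17b_pr.ExponentialDecay

open Pool.H47EA Pool.Agent.U475.EA

/-- There is an absolute constant `c > 0` such that for every dimension `d ≥ 1` there are measurable
functions `K A` of the couplings, for the nonempty finite sets `A` of sites, with mean at most
`10800 ^ d |A|`, such that for ALL realisations `J`, all `β ∈ (0, c / √d]` and all `r`:

* for every finite volume `Λ` whose complement has distance at least `r` from `A`, all boundary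
  conditions `ω`, `ω'` and every function `f` of the spins in `A` with values in `[0,1]`, the
  averages of `f` in `Λ` differ by at most `K A J exp (-r / 9)`;
* for every Gibbs state `π`, every such `f` and every measurable function `g` of the spins at
  distance at least `r` from `A` with values in `[0,1]`, the covariance of `f` and `g` under `π` is
  at most `K A J exp (-r / 9)`;

and almost surely, for all `β ∈ (0, c / √d]` there is exactly one Gibbs state, and its two-point
function satisfies `|⟨σ_x σ_y⟩| ≤ 4 K {x} J exp (-|x - y|₁ / 9)` for all sites `x`, `y`. -/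
theorem result :
    ∃ c : ℝ, 0 < c ∧ ∀ d : ℕ, 1 ≤ d →
      ∃ K : Finset (Site d) → Coupling d → ℝ≥0∞,
        (∀ A, A.Nonempty → Measurable (K A) ∧
          ∫⁻ J, K A J ∂(couplingLaw d) ≤ 10800 ^ d * A.card) ∧
        (∀ A : Finset (Site d), A.Nonempty → ∀ (J : Coupling d) (β : ℝ), 0 < β →
          β ≤ c / √(d : ℝ) →
          (∀ (Λ : Finset (Site d)) (r : ℕ), (∀ a ∈ A, ∀ y, y ∉ Λ → r ≤ dist1 a y) →
            ∀ f : (Site d → Bool) → ℝ, Unit01 f → LocalOn A f → ∀ ω ω' : Site d → Bool,
              ENNReal.ofReal |gE β J Λ ω f - gE β J Λ ω' f| ≤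
                K A J * ENNReal.ofReal (Real.exp (-((r : ℝ) / 9)))) ∧
          ∀ π : Measure (Site d → Bool), IsGibbs β J π → ∀ (r : ℕ) (f g : (Site d → Bool) → ℝ),
            Unit01 f → LocalOn A f → Unit01 g → Measurable g →
            (∀ σ σ' : Site d → Bool, (∀ y, (∀ a ∈ A, r ≤ dist1 a y) → σ y = σ' y) → g σ = g σ') →
            ENNReal.ofReal |(∫ σ, f σ * g σ ∂π) - (∫ σ, f σ ∂π) * ∫ σ, g σ ∂π| ≤
              K A J * ENNReal.ofReal (Real.exp (-((r : ℝ) / 9)))) ∧
        ∀ᵐ J ∂(couplingLaw d), ∀ β : ℝ, 0 < β → β ≤ c / √(d : ℝ) →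
          (∃! π : Measure (Site d → Bool), IsGibbs β J π) ∧
          ∀ π : Measure (Site d → Bool), IsGibbs β J π → ∀ x y : Site d,
            ENNReal.ofReal |∫ σ, sg (σ x) * sg (σ y) ∂π| ≤
              4 * (K {x} J * ENNReal.ofReal (Real.exp (-((dist1 x y : ℝ) / 9)))) := by
  classical
  obtain ⟨c₁, hc₁, H⟩ := decay
  obtain ⟨c₂, hc₂, H'⟩ := main_of t_BASIC hINF (t_EXPL t_BASIC) t_CHAIN t_GIBBSU
    (t_GIBBSE t_BASIC) hGOOD t_BALL
  refine ⟨min c₁ c₂, lt_min hc₁ hc₂, fun d hd => ?_⟩
  have hle1 : min c₁ c₂ / √(d : ℝ) ≤ c₁ / √(d : ℝ) := by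
    gcongr; exact min_le_left _ _
  have hle2 : min c₁ c₂ / √(d : ℝ) ≤ c₂ / √(d : ℝ) := by
    gcongr; exact min_le_right _ _
  set K : Finset (Site d) → Coupling d → ℝ≥0∞ := fun A =>
    if hA : A.Nonempty then (H d hd A hA).choose else 0 with hK
  have hKs : ∀ A (hA : A.Nonempty), K A = (H d hd A hA).choose := fun A hA => by
    simp only [hK, hA, dif_pos]
  have part : ∀ A : Finset (Site d), A.Nonempty → ∀ (J : Coupling d) (β : ℝ), 0 < β →
      β ≤ min c₁ c₂ / √(d : ℝ) →
      (∀ (Λ : Finset (Site d)) (r : ℕ), (∀ a ∈ A, ∀ y, y ∉ Λ → r ≤ dist1 a y) →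
        ∀ f : (Site d → Bool) → ℝ, Unit01 f → LocalOn A f → ∀ ω ω' : Site d → Bool,
          ENNReal.ofReal |gE β J Λ ω f - gE β J Λ ω' f| ≤
            K A J * ENNReal.ofReal (Real.exp (-((r : ℝ) / 9)))) ∧
      ∀ π : Measure (Site d → Bool), IsGibbs β J π → ∀ (r : ℕ) (f g : (Site d → Bool) → ℝ),
        Unit01 f → LocalOn A f → Unit01 g → Measurable g →
        (∀ σ σ' : Site d → Bool, (∀ y, (∀ a ∈ A, r ≤ dist1 a y) → σ y = σ' y) → g σ = g σ') →
        ENNReal.ofReal |(∫ σ, f σ * g σ ∂π) - (∫ σ, f σ ∂π) * ∫ σ, g σ ∂π| ≤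
          K A J * ENNReal.ofReal (Real.exp (-((r : ℝ) / 9))) := by
    intro A hA J β hβ0 hβ
    have h1 := (H d hd A hA).choose_spec.2.2 J β hβ0 (hβ.trans hle1)
    rw [← hKs A hA] at h1
    refine ⟨h1, fun π hπ r f g hf hfl hg hgm hgl => ?_⟩
    exact cov_le hπ A r f g hf hfl hg hgm hgl _ fun Λ hΛ ω ω' => h1 Λ r hΛ f hf hfl ω ω'
  refine ⟨K, fun A hA => ?_, part, ?_⟩
  · rw [hKs A hA]
    exact ⟨(H d hd A hA).choose_spec.1, (H d hd A hA).choose_spec.2.1⟩
  · filter_upwards [H' d hd] with J hJ β hβ0 hβ
    have hu := hJ.1 β hβ0 (hβ.trans hle2)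
    refine ⟨hu, fun π hπ x y => ?_⟩
    have hu' : ∀ π', IsGibbs β J π' → π' = π := fun π' hπ' => hu.unique hπ' hπ
    have h1 := (part {x} (Finset.singleton_nonempty x) J β hβ0 hβ).2 π hπ (dist1 x y)
      (ind x) (ind y) (fun σ => by unfold ind; split_ifs <;> norm_num)
      (fun σ σ' h => by
        have := h x (Finset.mem_singleton_self x)
        simp [ind, this])
      (fun σ => by unfold ind; split_ifs <;> norm_num)
      (local_meas {y} (ind y) (fun σ σ' h => by
        have := h y (Finset.mem_singleton_self y)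
        simp [ind, this]))
      (fun σ σ' h => by
        have := h y (fun a ha => by rw [Finset.mem_singleton.1 ha])
        simp [ind, this])
    rw [two_point hπ hu' x y, abs_mul, abs_of_pos (by norm_num : (0 : ℝ) < 4),
      ENNReal.ofReal_mul (by norm_num)]
    have h4 : ENNReal.ofReal 4 = 4 := by norm_num
    rw [h4]
    gcongr

end Pool.Agent.Results.MP_81d17b_pr.ExponentialDecay
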