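import Pool.Agent.U475.EA.S.Asf

/-!
# Edwards–Anderson spin glass: no phase transition of any order for `β < c / √d`

The starting result gives uniqueness of the Gibbs state for `0 < β ≤ c / √d`. Here it is shown that
in the interval `(-c / √d, c / √d)` nothing singular happens at all: almost surely the free energies
of the boxes converge, for all `β` and all boundary conditions simultaneously, to a deterministic
function of `β` which is infinitely differentiable, and the expectation of every local function in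
the Gibbs state is an infinitely differentiable function of `β`; in both cases the derivatives obey
Gevrey bounds of order `d + 1`. (Real analyticity is not expected beyond the ferromagnetic critical
point, which is of order `1 / d`, because of large regions without frustration.)

Outline: the expectation of a local function is the sum over `k` of the differences of its averages
in the neighbourhoods of radius `k` and `k - 1`. Such a difference is at most `K exp (-k / 9)` for
real `β`, by the exponential loss of memory, and at most `4` in a complex strip whose width is a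
negative power of `k`; a two-constants estimate bounds its `m`-th derivative by
`m! (C k ^ d) ^ m √K exp (-k / 18)`, and the sum over `k` is a Gevrey bound. The free energy is the
integral of the average of the energy per site, and the fluctuations are bounded by a variance
estimate for functions of independent signs.
-/

set_option autoImplicit false

open MeasureTheory Filter
open scoped ENNReal Topology Nat

namespace Pool.Agent.Results.MP_81d17b_pr.GevreyRegularity

open Pool.H47EA Pool.Agent.U475.EA

/-- There are absolute constants `c, C > 0` such that for every dimension `d ≥ 2` there are a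
function `F` and, for the nonempty finite sets `A` of sites, measurable functions `K A` of the
couplings with mean at most `C ^ d |A|`, such that with `I = (-c / √d, c / √d)`:

* `F` is infinitely differentiable in `I`, with
  `|F^(m+1)| ≤ C ^ d (C d) ^ (d m) (m!) ^ (d + 1)` for all `m ≥ 0`;
* almost surely, for all `β ∈ I` and all sequences of boundary conditions `ω n`,
  `log Z / |Λ_n| → F β`, where `Λ_n = [-n, n]^d` and `Z` is the partition function in `Λ_n` with
  the boundary condition `ω n`;
* almost surely, there is exactly one Gibbs state `π β` for every `β ∈ I`, and for every `A` and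
  every function `f` of the spins in `A` with `|f| ≤ 1` the function `β ↦ ∫ f dπ_β` is infinitely
  differentiable in `I`, its `m`-th derivative being at most
  `K A J (|A| (C d) ^ d) ^ m (m!) ^ (d + 1)` for all `m ≥ 0`. -/
theorem result :
    ∃ c C : ℝ, 0 < c ∧ 0 < C ∧ ∀ d : ℕ, 2 ≤ d →
      ∃ (F : ℝ → ℝ) (K : Finset (Site d) → Coupling d → ℝ≥0∞),
        ContDiffOn ℝ (⊤ : ℕ∞) F (Set.Ioo (-(c / √(d : ℝ))) (c / √(d : ℝ))) ∧
        (∀ (m : ℕ) (β : ℝ), |β| < c / √(d : ℝ) →
          |iteratedDeriv (m + 1) F β| ≤ C ^ d * ((C * d) ^ d) ^ m * (m ! : ℝ) ^ (d + 1)) ∧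
        (∀ A : Finset (Site d), A.Nonempty → Measurable (K A) ∧
          ∫⁻ J, K A J ∂(couplingLaw d) ≤ ENNReal.ofReal (C ^ d * A.card)) ∧
        ∀ᵐ J ∂(couplingLaw d),
          (∀ β : ℝ, |β| < c / √(d : ℝ) → ∀ ω : ℕ → Site d → Bool,
            Tendsto (fun n : ℕ =>
              Real.log (Zp β J (Finset.Icc (fun _ => -(n : ℤ)) (fun _ => (n : ℤ))) (ω n)) /
                (Finset.Icc (fun _ => -(n : ℤ)) (fun _ => (n : ℤ)) : Finset (Site d)).card)
              atTop (𝓝 (F β))) ∧
          ∃ π : ℝ → Measure (Site d → Bool),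
            (∀ β : ℝ, |β| < c / √(d : ℝ) →
              IsGibbs β J (π β) ∧ ∀ π' : Measure (Site d → Bool), IsGibbs β J π' → π' = π β) ∧
            ∀ (A : Finset (Site d)), A.Nonempty → ∀ f : (Site d → Bool) → ℝ, LocalOn A f →
              (∀ σ, |f σ| ≤ 1) →
              ContDiffOn ℝ (⊤ : ℕ∞) (fun β => ∫ σ, f σ ∂(π β))
                (Set.Ioo (-(c / √(d : ℝ))) (c / √(d : ℝ))) ∧
              ∀ (m : ℕ) (β : ℝ), |β| < c / √(d : ℝ) →
                ENNReal.ofReal |iteratedDeriv m (fun β => ∫ σ, f σ ∂(π β)) β| ≤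
                  K A J * ENNReal.ofReal ((A.card * (C * d) ^ d) ^ m * (m ! : ℝ) ^ (d + 1)) := by
  classical
  obtain ⟨c, hc, H⟩ := env
  set C : ℝ := max (4320 * (1 + 1 / c)) 28771200 with hC
  have hC1 : 4320 * (1 + 1 / c) ≤ C := le_max_left _ _
  have hC2 : 28771200 ≤ C := le_max_right _ _
  have hC0 : 0 < C := by linarith
  refine ⟨c / 2, C, by positivity, hC0, fun d hd => ?_⟩
  have hd1 : 1 ≤ d := by omega
  obtain ⟨K, hK1, hK2, hK3⟩ := H d hd1
  have hE : Env c d K := ⟨fun A hA => (hK1 A hA).1, fun A hA => (hK1 A hA).2.1,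
    fun A hA => (hK1 A hA).2.2, hK2, hK3⟩
  have hcb : c / 2 / √(d : ℝ) = c / √(d : ℝ) / 2 := by ring
  simp only [hcb]
  have h1c : 0 < 1 / c := by positivity
  have hCd : 2160 * (1 + 1 / c) * d ≤ C * d := by
    have : 2160 * (1 + 1 / c) ≤ C := by linarith
    gcongr
  have hFc : ∀ x ∈ Set.Ioo (-(c / √(d : ℝ) / 2)) (c / √(d : ℝ) / 2),
      HasDerivAt (Fe d) (hEn d 0 x) x := fun x hx =>
    Fe_deriv hc hd1 hE x ((mem_Ioo_abs _ x).1 hx)
  -- the chain of the derivatives of the free energy
  set G : ℕ → ℝ → ℝ := fun m => if m = 0 then Fe d else hEn d (m - 1) with hG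
  have hchain : ∀ m, ∀ x ∈ Set.Ioo (-(c / √(d : ℝ) / 2)) (c / √(d : ℝ) / 2),
      HasDerivAt (G m) (G (m + 1) x) x := by
    intro m x hx
    cases m with
    | zero => simpa [hG] using hFc x hx
    | succ m =>
      simp only [hG, Nat.succ_ne_zero, if_false, Nat.add_sub_cancel]
      exact hEn_deriv hc hd1 hE m x ((mem_Ioo_abs _ x).1 hx)
  refine ⟨Fe d, fun A J => 148 * K A J, ?_, ?_, ?_, ?_⟩
  · have := contDiffOn_chain isOpen_Ioo G hchain
    simpa [hG] using this
  · intro m β hβ
    have e := chain_iteratedDeriv isOpen_Ioo (Fe d) G (fun x _ => by simp [hG]) hchain (m + 1) β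
      ((mem_Ioo_abs _ β).2 hβ)
    rw [e]
    simp only [hG, Nat.succ_ne_zero, if_false, Nat.add_sub_cancel]
    refine (hEn_le hc hd1 hE m β hβ).trans ?_
    have h2 : (3 : ℝ) ^ d * (148 * 64800 ^ d) ≤ C ^ d := by
      calc (3 : ℝ) ^ d * (148 * 64800 ^ d) ≤ 3 ^ d * (148 ^ d * 64800 ^ d) := by
            gcongr
            exact le_self_pow₀ (by norm_num) (by omega)
        _ = 28771200 ^ d := by rw [← mul_pow, ← mul_pow]; norm_num
        _ ≤ C ^ d := by gcongr
    have h3 : ((2 : ℕ) : ℝ) * (2160 * (1 + 1 / c) * d) ^ d ≤ (C * d) ^ d := by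
      calc ((2 : ℕ) : ℝ) * (2160 * (1 + 1 / c) * d) ^ d
          ≤ 2 ^ d * (2160 * (1 + 1 / c) * d) ^ d := by
            gcongr
            push_cast
            exact le_self_pow₀ (by norm_num) (by omega)
        _ = (4320 * (1 + 1 / c) * d) ^ d := by rw [← mul_pow]; congr 1; ring
        _ ≤ (C * d) ^ d := by gcongr
    calc 3 ^ d * (148 * 64800 ^ d) * Bm c d 2 m
        ≤ C ^ d * (((C * d) ^ d) ^ m * (m ! : ℝ) ^ (d + 1)) := by
          unfold Bm
          gcongr
      _ = _ := by ring
  · intro A hA
    refine ⟨(hE.meas A hA).const_mul 148, ?_⟩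
    rw [lintegral_const_mul _ (hE.meas A hA)]
    have h2 : (148 : ℝ) * (64800 ^ d * A.card) ≤ C ^ d * A.card := by
      calc (148 : ℝ) * (64800 ^ d * A.card) ≤ 148 ^ d * (64800 ^ d * A.card) := by
            gcongr
            exact le_self_pow₀ (by norm_num) (by omega)
        _ = (148 * 64800) ^ d * A.card := by rw [mul_pow]; ring
        _ ≤ C ^ d * A.card := by
            gcongr
            linarith
    have h3 : (148 : ℝ≥0∞) * (64800 ^ d * A.card) =
        ENNReal.ofReal (148 * (64800 ^ d * A.card)) := by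
      rw [ENNReal.ofReal_mul (by positivity), ENNReal.ofReal_mul (by positivity),
        ENNReal.ofReal_pow (by norm_num), ENNReal.ofReal_natCast]
      norm_num
    calc 148 * ∫⁻ J, K A J ∂(couplingLaw d) ≤ 148 * (64800 ^ d * A.card) := by
          gcongr
          exact hE.mean A hA
      _ = ENNReal.ofReal (148 * (64800 ^ d * A.card)) := h3
      _ ≤ _ := ENNReal.ofReal_le_ofReal h2
  · filter_upwards [free_ae hc hd hE, hE.ae] with J hJ1 hJ2
    refine ⟨fun β hβ ω => hJ1 β hβ ω, ?_⟩
    have hex : ∀ β : ℝ, ∃ π : Measure (Site d → Bool), |β| < c / √(d : ℝ) / 2 →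
        IsGibbs β J π ∧ ∀ π' : Measure (Site d → Bool), IsGibbs β J π' → π' = π := by
      intro β
      by_cases hβ : |β| < c / √(d : ℝ) / 2
      · have hpos : 0 ≤ c / √(d : ℝ) := by positivity
        obtain ⟨π, hπ, hu⟩ := hJ2.2 β (by linarith)
        exact ⟨π, fun _ => ⟨hπ, hu⟩⟩
      · exact ⟨0, fun h => absurd h hβ⟩
    choose π hπ using hex
    refine ⟨π, hπ, fun A hA f hfl hf => ?_⟩
    have hfin := hJ2.1 A hA
    have hone := hE.one_le_real A hA J hfin
    have hloss := hE.loss A hA J hfin
    have h0 : ∀ x ∈ Set.Ioo (-(c / √(d : ℝ) / 2)) (c / √(d : ℝ) / 2),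
        ∫ σ, f σ ∂(π x) = Gm J A f 0 x := fun x hx =>
      (Gm_zero hc hd1 J A hA _ hone hloss f hf hfl x ((mem_Ioo_abs _ x).1 hx) (π x)
        (hπ x ((mem_Ioo_abs _ x).1 hx)).1).symm
    have hch : ∀ m, ∀ x ∈ Set.Ioo (-(c / √(d : ℝ) / 2)) (c / √(d : ℝ) / 2),
        HasDerivAt (Gm J A f m) (Gm J A f (m + 1) x) x := fun m x hx =>
      Gm_deriv hc hd1 J A hA _ hone hloss f hf hfl m x ((mem_Ioo_abs _ x).1 hx)
    refine ⟨(contDiffOn_chain isOpen_Ioo (Gm J A f) hch).congr h0, fun m β hβ => ?_⟩
    have e := chain_iteratedDeriv isOpen_Ioo (fun β => ∫ σ, f σ ∂(π β)) (Gm J A f) h0 hch m β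
      ((mem_Ioo_abs _ β).2 hβ)
    rw [e]
    have h4 := Gm_le' hc hd1 J A hA _ hone hloss f hf hfl m β hβ
    have h5 : (148 : ℝ≥0∞) * K A J = ENNReal.ofReal (148 * (K A J).toReal) := by
      rw [ENNReal.ofReal_mul (by norm_num), ENNReal.ofReal_toReal hfin.ne]
      norm_num
    rw [h5, ← ENNReal.ofReal_mul (by positivity)]
    apply ENNReal.ofReal_le_ofReal
    refine h4.trans ?_
    gcongr

end Pool.Agent.Results.MP_81d17b_pr.GevreyRegularity
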