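import Pool.Agent.U475.EA.Change

/-!
# Edwards–Anderson spin glass: uniqueness survives adversarial changes of the couplings

The symmetric `±1` couplings `J` are drawn at random, and then an adversary who knows `J` (and the
inverse temperature) changes the signs of infinitely many of them. If the changed edges can be
oriented such that every site has out-degree at most `a` and in-degree at most `b`, then the changed
model still has exactly one Gibbs state for all `β ≤ c / (√d + √(a b))`, with an absolute constant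
`c`. The exceptional null set of `J` does not depend on the changes, on `a`, `b` and on `β`.

Special cases: at most `k` changes at every site (`a = b = k`, `β ≤ c / (√d + k)`); every site
changes `a` edges of its choice (`b = 2 d`, `β ≤ c' / √(a d)`); so `a` between `1` and `d` leads from
the threshold `1 / √d` of the starting result to the threshold `1 / d` of Dobrushin's uniqueness
theorem, which holds for all couplings.

The starting file `UniquenessSqrtDim` is the case without changes. Its good event is a bound for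
the norm of the signed adjacency matrix in a ball and of its conjugate by exponential weights; the
new point is that this event is stable in the operator norm (Schur's test with different row and
column sums), while the chain sums over the bad sites are those of the original couplings.
-/

set_option autoImplicit false

open MeasureTheory Filter
open scoped ENNReal Topology

namespace Pool.Agent.Results.MP_81d17b_pr.RobustUniqueness

open Pool.H47EA Pool.Agent.U475.EA

theorem main :
    ∃ c : ℝ, 0 < c ∧ ∀ d : ℕ, 1 ≤ d → ∀ᵐ J ∂(couplingLaw d), ∀ (a b : ℕ) (J' : Coupling d),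
      Changes J J' a b → ∀ β : ℝ, 0 < β → β ≤ c / (√(d : ℝ) + √((a : ℝ) * b)) →
        ∃! π : Measure (Site d → Bool), IsGibbs β J' π := by
  classical
  obtain ⟨τ, hτ1, hbad⟩ := bad_prob
  have hτ0 : 0 < τ := by linarith
  refine ⟨1 / (48 * τ), by positivity, fun d hd => ?_⟩
  have hd' : (1 : ℝ) ≤ d := by exact_mod_cast hd
  have hsd : 1 ≤ √(d : ℝ) := by rw [Real.one_le_sqrt]; exact hd'
  have hsd0 : 0 < √(d : ℝ) := by linarith
  have hsd2 : √(d : ℝ) ^ 2 = d := Real.sq_sqrt (by positivity)
  set T : ℝ := τ * √(d : ℝ) with hT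
  have hT0 : 0 < T := by positivity
  set ε : ℝ≥0∞ := ENNReal.ofReal (epsr d) with hε
  have hnum : ((180 ^ d : ℕ) : ℝ≥0∞) * (ε + ENNReal.ofReal (badr d)) ≤ 2⁻¹ := by
    refine le_trans ?_ (num_ennreal d hd)
    gcongr
    exact le_mul_of_one_le_left zero_le (one_le_pow₀ (by norm_num))
  have hchain := t_CHAIN d (16 * d) (bad d τ) (ENNReal.ofReal (badr d)) ε (180 ^ d)
    (fun x J J' h => bad_local d τ x J J' h) (fun x => hbad d hd x)
    (fun x => card_ball_33 t_BALL d hd x) hnum
  filter_upwards [hchain] with J hJ a b J' hch β hβ0 hβ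
  set s : ℝ := √((a : ℝ) * b) with hs
  have hs0 : 0 ≤ s := Real.sqrt_nonneg _
  have hβs : β * (√(d : ℝ) + s) ≤ 1 / (48 * τ) := by
    rw [le_div_iff₀ (by linarith)] at hβ; exact hβ
  have hTβ : 4 * (T + 12 * s) * β ≤ 1 := by
    have h1 : 4 * (T + 12 * s) ≤ 48 * τ * (√(d : ℝ) + s) := by
      rw [hT]
      nlinarith [mul_nonneg hτ0.le hsd0.le, mul_nonneg (sub_nonneg.2 hτ1) hs0]
    calc 4 * (T + 12 * s) * β ≤ 48 * τ * (√(d : ℝ) + s) * β :=
          mul_le_mul_of_nonneg_right h1 hβ0.le
      _ = 48 * τ * (β * (√(d : ℝ) + s)) := by ring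
      _ ≤ 48 * τ * (1 / (48 * τ)) := mul_le_mul_of_nonneg_left hβs (by positivity)
      _ = 1 := by field_simp
  have hβd : 4 * β * d ≤ √(d : ℝ) := by
    have h2 : β * √(d : ℝ) ≤ 1 / (48 * τ) := by
      nlinarith [mul_nonneg hβ0.le hs0]
    have h3 : 1 / (48 * τ) ≤ 1 / 4 := by
      apply one_div_le_one_div_of_le (by norm_num); linarith
    calc 4 * β * d = 4 * (β * √(d : ℝ)) * √(d : ℝ) := by
          nth_rewrite 1 [← hsd2]; ring
      _ ≤ 4 * (1 / 4) * √(d : ℝ) := by
          gcongr
          exact h2.trans h3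
      _ = √(d : ℝ) := by ring
  set p : Site d → ℝ := fun x => if J ∈ bad d τ x then 1 else epsr d with hp
  have hp0 : ∀ x, 0 ≤ p x := by
    intro x; simp only [hp]; split_ifs <;> first | exact zero_le_one | exact epsr_nonneg d
  have hpe : (fun x => ENNReal.ofReal (p x)) =
      fun x => if J ∈ bad d τ x then (1 : ℝ≥0∞) else ε := by
    funext x; simp only [hp, hε]; split_ifs <;> simp
  have hinf : ∀ (x : Site d) (Λ : Finset (Site d)), x ∈ Λ → ∀ ω ω' : Site d → Bool,
      (∀ y ∈ ball x (16 * d), y ∉ Λ → ω y = ω' y) →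
      |gE β J' Λ ω (ind x) - gE β J' Λ ω' (ind x)| ≤ p x := by
    intro x Λ hxΛ ω ω' hω
    by_cases hb : J ∈ bad d τ x
    · simp only [hp, hb, if_true]
      exact infl_one J' x β Λ ω ω'
    · simp only [hp, hb, if_false]
      have hG : Good J x (16 * d) T := by
        by_contra hcon; exact hb hcon
      exact infl J' x (T + 12 * s) β (by positivity) (good_change hch x _ T hG) hβ0 hTβ hβd Λ hxΛ
        ω ω' hω
  have hforget : Forget β J' := by
    intro A δ hδ
    have hJA := hJ A
    obtain ⟨n, hn⟩ :=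
      ((ENNReal.tendsto_nhds_zero.mp hJA) (ENNReal.ofReal δ) (by simpa using hδ)).exists
    refine ⟨A.biUnion fun a => ball a ((n + 1) * (2 * (16 * d) + 1)), fun Λ hΛ f hf hloc ω ω' => ?_⟩
    have hfar : ∀ a ∈ A, ∀ y, y ∉ Λ → (n + 1) * (2 * (16 * d) + 1) ≤ dist1 a y := by
      intro a ha y hy
      by_contra hcon
      apply hy
      apply hΛ
      rw [Finset.mem_biUnion]
      exact ⟨a, ha, (mem_ball_iff a y _).2 (by omega)⟩
    have h := t_EXPL t_BASIC d (16 * d) (2 * (16 * d)) (by omega) β J' p hp0 hinf A f hf hloc Λ n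
      hfar ω ω'
    rw [hpe] at h
    exact (ENNReal.ofReal_le_ofReal_iff hδ.le).1 (h.trans hn)
  obtain ⟨π, hπ⟩ := t_GIBBSE t_BASIC d β J' hforget
  exact ⟨π, hπ, fun π' hπ' => t_GIBBSU d β J' hforget π' π hπ' hπ⟩

/-- There is an absolute constant `c > 0` such that for every dimension `d ≥ 1` and almost every
realisation `J` of the symmetric `±1` couplings:

* for all `a`, `b`, for ALL signs `J'` which differ from `J` only on edges that can be oriented with
  out-degrees at most `a` and in-degrees at most `b`, and for all `β` with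
  `0 < β ≤ c / (√d + √(a b))`, there is exactly one Gibbs state at `(β, J')`;
* in particular for all `k`, all `J'` which differ from `J` in at most `k` edges at each site, and
  all `β` with `0 < β ≤ c / (√d + k)`;
* and for all `a ≥ 1`, all `J'` which differ from `J` only on edges `{x, y}` with `y ∈ O x` or
  `x ∈ O y`, where every site `x` has chosen a set `O x` of at most `a` sites, and all `β` with
  `0 < β ≤ c / (3 √(a d))`. -/
theorem result :
    ∃ c : ℝ, 0 < c ∧ ∀ d : ℕ, 1 ≤ d → ∀ᵐ J ∂(couplingLaw d),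
      (∀ (a b : ℕ) (J' : Coupling d), Changes J J' a b →
        ∀ β : ℝ, 0 < β → β ≤ c / (√(d : ℝ) + √((a : ℝ) * b)) →
          ∃! π : Measure (Site d → Bool), IsGibbs β J' π) ∧
      (∀ (k : ℕ) (J' : Coupling d), (∀ x : Site d, {y | Jc J' x y ≠ Jc J x y}.ncard ≤ k) →
        ∀ β : ℝ, 0 < β → β ≤ c / (√(d : ℝ) + k) →
          ∃! π : Measure (Site d → Bool), IsGibbs β J' π) ∧
      ∀ (a : ℕ) (J' : Coupling d) (O : Site d → Finset (Site d)), 1 ≤ a →
        (∀ x, (O x).card ≤ a) → (∀ x y : Site d, Jc J' x y ≠ Jc J x y → y ∈ O x ∨ x ∈ O y) →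
        ∀ β : ℝ, 0 < β → β ≤ c / (3 * √((a : ℝ) * d)) →
          ∃! π : Measure (Site d → Bool), IsGibbs β J' π := by
  classical
  obtain ⟨c, hc, H⟩ := main
  refine ⟨c, hc, fun d hd => ?_⟩
  have hd' : (1 : ℝ) ≤ d := by exact_mod_cast hd
  have hadj : ∀ (J J' : Coupling d) (x y : Site d), Jc J' x y ≠ Jc J x y → (lat d).Adj x y := by
    intro J J' x y h
    by_contra hadj
    exact h (by simp [Jc, hadj])
  filter_upwards [H d hd] with J hJ
  refine ⟨hJ, fun k J' hk β hβ0 hβ => ?_, fun a J' O ha1 ha hO β hβ0 hβ => ?_⟩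
  · refine hJ k k J' ⟨fun x => (nbr x).filter fun y => Jc J' x y ≠ Jc J x y, fun x => ?_,
      fun y => ?_, fun x y hxy => Or.inl ?_⟩ β hβ0 ?_
    · refine le_trans ?_ (hk x)
      rw [← Set.ncard_coe_finset]
      refine Set.ncard_le_ncard (fun y hy => ?_) ?_
      · rw [Finset.mem_coe, Finset.mem_filter] at hy
        exact hy.2
      · refine (Finset.finite_toSet (nbr x)).subset fun y hy => ?_
        rw [Finset.mem_coe, Basic.mem_nbr]
        exact hadj J J' x y hy
    · refine (Set.ncard_le_ncard (fun x hx => ?_) ?_).trans (hk y)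
      · have h1 := (Finset.mem_filter.1 hx.2).2
        show Jc J' y x ≠ Jc J y x
        rw [Jc_comm J' y x, Jc_comm J y x]
        exact h1
      · refine (Finset.finite_toSet (nbr y)).subset fun x hx => ?_
        rw [Finset.mem_coe, Basic.mem_nbr]
        exact hadj J J' y x hx
    · rw [Finset.mem_filter, Basic.mem_nbr]
      exact ⟨hadj J J' x y hxy, hxy⟩
    · rw [Real.sqrt_mul_self (Nat.cast_nonneg k)]
      exact hβ
  · refine hJ a (2 * d) J' ⟨O, ha, fun y => ?_, hO⟩ β hβ0 (hβ.trans ?_)
    · refine le_trans ?_ (InfAux.nbr_card y)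
      rw [← Set.ncard_coe_finset]
      refine Set.ncard_le_ncard (fun x hx => ?_) (Finset.finite_toSet _)
      rw [Finset.mem_coe, Basic.mem_nbr, Basic.dist1_comm]
      exact hx.1
    · have ha' : (1 : ℝ) ≤ a := by exact_mod_cast ha1
      have h1 : √(d : ℝ) ≤ √((a : ℝ) * d) := Real.sqrt_le_sqrt (by nlinarith)
      have h2 : √((a : ℝ) * ((2 * d : ℕ) : ℝ)) ≤ 2 * √((a : ℝ) * d) := by
        have : (2 : ℝ) * √((a : ℝ) * d) = √(4 * ((a : ℝ) * d)) := by
          have h4 : √(4 : ℝ) = 2 := by
            rw [show (4 : ℝ) = 2 ^ 2 by norm_num]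
            exact Real.sqrt_sq (by norm_num)
          rw [Real.sqrt_mul (by norm_num : (0 : ℝ) ≤ 4) ((a : ℝ) * d), h4]
        rw [this]
        apply Real.sqrt_le_sqrt
        push_cast
        nlinarith [mul_nonneg (by linarith : (0 : ℝ) ≤ a) (by linarith : (0 : ℝ) ≤ d)]
      have h3 : 0 < √(d : ℝ) := Real.sqrt_pos.2 (by linarith)
      apply div_le_div_of_nonneg_left hc.le
      · have := Real.sqrt_nonneg ((a : ℝ) * ((2 * d : ℕ) : ℝ))
        linarith
      · linarith

end Pool.Agent.Results.MP_81d17b_pr.RobustUniqueness
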